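import Pool.Agent.Q99.HU.Asm2
import Pool.Agent.Q79.HU.TWS
import Pool.Agent.Q79.HU.BBn
import Pool.Agent.Q151.HU.FAR
import Pool.Agent.Q239.HU.TG6
import Pool.Agent.Q239.HU.BAL
import Pool.Agent.Q239.HU.RL
import Pool.Agent.Q299.HU.HIM
import Pool.Agent.Q299.HU.NOP

/-!
# The volume conjecture for highly twisted links on planar shadows with dominant geometric angles
-/

set_option autoImplicit false

namespace Pool.Agent.Q99.HU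

open Finset Filter Topology MeasureTheory
open Pool.Agent.Q99.HT
open Pool.Agent.Q99.FAL (S_T1 Pc Val Pri fV n1 n2)

theorem vcU (D : List Pc) (h1 : Val D 1) (h2 : Pri D 1) (h3 : D ≠ [])
    (a : Fin D.length → Fin 6 → ℝ) (ha : Mx D a) (hq : Dm D a) :
    ∃ ρ0 : ℝ, 0 < ρ0 ∧ ∀ ρ : ℝ, 0 < ρ → ρ ≤ ρ0 → ∃ W0 C : ℝ, 1 ≤ W0 ∧
    ∀ (f : Fin D.length → Bool × ℕ) (Wm : ℝ), W0 ≤ Wm → (∀ k, Wm ≤ (f k).2) →
    ∃ x : Fin D.length → Fin 6 → ℂ, CrI D (wf f) x ∧ (∀ s i, ‖x s i - a s i‖ < ρ) ∧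
      (∀ x', CrI D (wf f) x' → (∀ s i, ‖x' s i - a s i‖ < ρ) → x' = x) ∧
      (∀ s, 0 < (n1 (x s) - n2 (x s)).im) ∧
      |VI x - 2 * Real.pi * fV a| ≤ C / Wm ^ 2 ∧
      ∃ z : ℝ, 0 < z ∧ Tendsto (fun N : ℕ => ‖kas N D f‖ /
        (N * √N * Real.exp (N * (VI x / (2 * Real.pi))))) atTop (𝓝 z) :=
  vc_hu Pool.Agent.Q79.HU.task_TWS Pool.Agent.Q79.HU.task_BBn Pool.Agent.Q151.HU.task_FAR
    D h1 h2 h3 a ha hq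

/-- the complex form -/
theorem allU (D : List Pc) (h1 : Val D 1) (h2 : Pri D 1)
    (h3 : D ≠ []) (a : Fin D.length → Fin 6 → ℝ) (ha : Mx D a) (hq : Dm D a) :
    ∃ ρ0 : ℝ, 0 < ρ0 ∧ ∀ ρ : ℝ, 0 < ρ → ρ ≤ ρ0 → ∃ W0 C : ℝ, 1 ≤ W0 ∧
    ∀ (w : Fin D.length → ℤ) (Wm : ℝ), W0 ≤ Wm → (∀ k, Wm ≤ |(w k : ℝ)|) →
    ∃ x : Fin D.length → Fin 6 → ℂ, CrI D w x ∧ (∀ s i, ‖x s i - a s i‖ < ρ) ∧
      (∀ x', CrI D w x' → (∀ s i, ‖x' s i - a s i‖ < ρ) → x' = x) ∧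
      (∀ s, 0 < (n1 (x s) - n2 (x s)).im) ∧ VI x = 2 * Real.pi * (PI w x).re ∧
      |VI x - 2 * Real.pi * fV a| ≤ C / Wm ^ 2 ∧
      ∃ z : ℂ, z ≠ 0 ∧ Tendsto (fun N : ℕ => (N : ℂ) ^ D.length * ZD N D w /
        (N * (√N : ℝ) * ((-1) ^ (D.length * (N - 1)) * Complex.exp (N * PI w x)))) atTop (𝓝 z) :=
  all_hu Pool.Agent.Q79.HU.task_TWS Pool.Agent.Q79.HU.task_BBn Pool.Agent.Q151.HU.task_FAR
    D h1 h2 h3 a ha hq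

/-- a sufficient condition -/
theorem bal_dm (D : List Pc) (h1 : Val D 1) (h2 : Pri D 1) (h3 : D ≠ [])
    (a : Fin D.length → Fin 6 → ℝ) (ha : Mx D a)
    (hb : ∀ s, Bal (bf (decide (a s 1 ≤ a s 2)) (a s))) : Dm D a :=
  bal_hu Pool.Agent.Q299.HU.task_HIM Pool.Agent.Q239.HU.task_TG6 Pool.Agent.Q239.HU.task_RL
    Pool.Agent.Q239.HU.task_BAL D h1 h2 h3 a ha hb

/-- angles which are not obtuse -/
theorem nop_dm (D : List Pc) (h1 : Val D 1) (h2 : Pri D 1) (h3 : D ≠ [])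
    (a : Fin D.length → Fin 6 → ℝ) (ha : Mx D a) (hq : ∀ k, a k 0 ≤ 1 / 4 ∧ a k 3 ≤ 1 / 4) :
    Dm D a :=
  nop_hu Pool.Agent.Q299.HU.task_HIM Pool.Agent.Q239.HU.task_TG6 Pool.Agent.Q239.HU.task_RL
    Pool.Agent.Q239.HU.task_BAL Pool.Agent.Q299.HU.task_NOP D h1 h2 h3 a ha hq

end Pool.Agent.Q99.HU
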