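import Pool.Agent.Q99.HT.Stm5

/-!
# Highly twisted links on planar shadows: the general case, part 1

The hypothesis of the project HT that the angles `α 0`, `α 3` are at most `1 / 4` is replaced by a
weaker one.  Let `pt x = ∑_i LL (ν_i) - LL (ν_i - x_i) - LL (x_i)`, where `ν_i = dn x i` is `n1 x` for
`i = 1, 2, 3` and `n2 x` for `i = 0, 4, 5`; `LL` is odd (`Real.log` is the logarithm of the absolute
value).  It is the exponential growth of the weight of a region with the six numbers `x ≥ 0` with the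
sum `1` (up to the order); if `n1 x = 1/2` then `pt x = ∑ hh (x i)`.  The hypothesis (`Dm`) is that the
sum of `pt` over the regions, as a function on the polytope of *all* solutions `x ≥ 0` of the linear
equations (`n1 x ≠ 1/2` is allowed), has a strict maximum at the geometric angles.

Only the new statements are new; those whose names end with `b` are statements of the project HT
with `Nw.Okb` instead of `Nw.Ok` (without the condition `ac`).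
-/

set_option autoImplicit false

namespace Pool.Agent.Q99.HT

variable {c d : ℕ}

/-- the centre is a critical point of the sum of the exponents -/
structure Nw.Okb (X : Nw c d) : Prop where
  fr : ∀ s, Fr (X.α s)
  ctr : ∀ s i, qc (X.α s) i = X.q0 s i + ∑ j, X.τ j * X.E j s i
  crit : ∀ j, ∑ s, ∑ i, ml (X.α s) i * X.E j s i = 0
  inj : ∀ t : Fin d → ℝ, (∀ s i, ∑ j, t j * X.E j s i = 0) → t = 0
  zer : ∀ s i, qc (X.α s) i = 0 → X.q0 s i = 0 ∧ ∀ j, X.E j s i = 0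

/-- the terms which are far from the centre are small -/
def Nw.Far (X : Nw c d) : Prop := ∀ δ : ℝ, 0 < δ → ∃ c3 : ℝ, 0 < c3 ∧ ∀ w : Fin c → ℤ,
  ∃ (C : ℝ) (p N0 : ℕ), ∀ N : ℕ, N0 ≤ N → ∀ t : Fin d → ℤ, (∃ j, δ < |(t j : ℝ) / N - X.τ j|) →
    ‖∏ s, Fq N (w s) (X.q N t s)‖ ≤ C * N ^ p * Real.exp (N * (∑ s, v0 (X.α s) - c3))

end Pool.Agent.Q99.HT

namespace Pool.Agent.Q99.HU

open Finset Filter Topology MeasureTheory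
open Pool.Agent.W719.BS (D LL)
open Pool.Agent.Q99.FAL (bq hh S_T1 dn n1 n2 Pc Ty Val Pri Pos AS Sol Out c6 fV cor Net)
open Pool.Agent.Q99.KN (sn bc Wk zl ez Fk cz S_PF S_WR S_SY LC bb Gm St ct S_LC S_GAM S_PX S_PZ QZ kz
  th jN S_LAP S_GIM)
open Pool.Agent.Q99.HT

/-! ### one region: lattice points -/

/-- the exponential growth of the weight of a region -/
noncomputable def pt (x : Fin 6 → ℝ) : ℝ := ∑ i, (LL (dn x i) - LL (dn x i - x i) - LL (x i))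

/-- `x` are six numbers `≥ 0` with the sum `1` and the corners `A, b, C` (divided by `N - 1`) -/
structure Crn (N A b C : ℕ) (x : Fin 6 → ℝ) : Prop where
  nn : ∀ i, 0 ≤ x i
  su : n1 x + n2 x = 1
  c0 : ((N : ℝ) - 1) * x 0 = A
  c1 : ((N : ℝ) - 1) * (x 1 + x 4) = b
  c2 : ((N : ℝ) - 1) * x 3 = C

/-- **the products `D N m`.**

Proof.  `log D N m = ∑_{j=1}^m log (2 sin (π j/N))` and `N LL (m/N) = N ∫_0^{m/N} log (2 sin πt) dt`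
differ by at most `C log N` (compare `log (2 sin (π j/N))` with the integral over
`[(j-1)/N, j/N]`: the function is monotone on `[0, 1/2]` and on `[1/2, 1]`; at `j = 1` the integral is
`log (2π/N) - 1 + o(1)`; similarly at the other end if `m > N/2`, or use `D N m D N (N-1-m) = N` and
`LL (1 - x) = - LL x`), and `|LL (m/(N-1)) - LL (m/N)| ≤ C log N / N` (`|x - y| ≤ 1/N` gives
`|LL x - LL y| ≤ C log N / N`, `|log (2 sin πt)| ≤ C - log (t (1-t))`).  There are bounds of this kind in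
`Pool/Agent/Q151/FW/TriA.lean` (`pp_bound`). -/
def S_LBD : Prop := ∃ C : ℝ, 0 < C ∧ ∀ N m : ℕ, 2 ≤ N → m < N →
  D N m ≤ C * N ^ 2 * Real.exp (N * LL ((m : ℝ) / (N - 1))) ∧
  Real.exp (N * LL ((m : ℝ) / (N - 1))) ≤ C * N ^ 2 * D N m

/-- **products of brackets.**

Proof.  `bq N n k = D N n / (D N k * D N (n - k))` for `k ≤ n < N`; `S_LBD` for all factors, `LL` is odd
(for `a 0 > m`: `bq N n (a 0 - m) = D n / (D (a 0 - m) D (n + m - a 0))`, `n + m - a 0 = N - 1 - a 0`,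
`LL (1 - x) = - LL x` and `LL (n/(N-1)) = - LL (m/(N-1))`, so `- LL(n) + LL(a0-m) + LL(1-a0) =
LL(m) - LL(m-a0) - LL(a0)`). -/
def S_PTB : Prop := S_LBD → ∃ (C : ℝ) (p : ℕ), ∀ (N n m : ℕ) (a : Fin 6 → ℕ), 2 ≤ N → n + m + 1 = N →
  a 0 + a 1 + a 2 = n → a 3 + a 4 + a 5 = m →
  (a 0 ≤ m → a 3 ≤ n →
    bq N m (a 0) * bq N n (a 3) * (bq N n (a 1) * bq N m (a 4)) * (bq N n (a 2) * bq N m (a 5)) ≤
      C * N ^ p * Real.exp (N * pt (fun i => (a i : ℝ) / (N - 1)))) ∧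
  (m < a 0 →
    bq N n (a 3) * (bq N n (a 1) * bq N m (a 4)) * (bq N n (a 2) * bq N m (a 5)) /
      bq N n (a 0 - m : ℕ) ≤ C * N ^ p * Real.exp (N * pt (fun i => (a i : ℝ) / (N - 1))))

/-- **concavity.**

Proof.  With `ν` fixed, `ξ ↦ LL ν - LL (ν - ξ) - LL ξ` is continuous on `[0, ν]` (`0 ≤ ν ≤ 1`) and its
derivative `log (2 sin π(ν-ξ)) - log (2 sin πξ)` is decreasing on `(0, ν)`
(`cot π(ν-ξ) + cot πξ = sin πν / (sin π(ν-ξ) sin πξ) ≥ 0`). -/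
def S_CC : Prop := ∀ x y : Fin 6 → ℝ, (∀ i, 0 ≤ x i) → (∀ i, 0 ≤ y i) → n1 x + n2 x = 1 →
  n1 y = n1 x → n2 y = n2 x → x 0 ≤ n2 x → x 3 ≤ n1 x → y 0 ≤ n2 x → y 3 ≤ n1 x →
  ∀ l : ℝ, 0 ≤ l → l ≤ 1 → (1 - l) * pt x + l * pt y ≤ pt (fun i => (1 - l) * x i + l * y i)

/-- **a term at a lattice point**, for small `A` and `C` and for `b ≤ γ = N - 1 - A - b - C`.

Proof.  As `task_TW` (`Pool/Agent/Q208/HT/TW.lean`).  Let `n1 = k`, `n2 = N - 1 - k`.  If no bracket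
vanishes: `S_D1` (2) and `S_PTB` (1) for `a = (A, j, n1-A-j, C, b-j, n2-C-(b-j))`
(`bq N n1 (A+j) = bq N n1 (n1-A-j)`, …).  If `v = A + j - n1 ≥ 1`, `j ≤ n1`, `C + (b-j) ≤ n2`: value and
derivative are at most the product `P` of the brackets of `a = (A, j-v, 0, C, b-j, n2-C-(b-j))` (proof
of `task_TW`), which has the corners `A, b - v, C`.  Let `p = a/(N-1)`, and let `p'` be `p` with
`1 ↔ 2`, `4 ↔ 5` exchanged; `pt p' = pt p`.  The second corner of `p` is `(b - v)/(N-1)`, the one of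
`p'` is `(γ + v)/(N-1)` (`γ + v` is the sum of `a 2` and `a 5`), so a convex combination `x` has the
second corner `b/(N-1)`, because `b - v ≤ b ≤ γ + v`; `pt x ≥ pt p` by `S_CC` (`n1`, `n2` are the
same).  The other wall in the same way.  Otherwise value and derivative vanish. -/
def S_TWS : Prop := S_D1 → S_LBD → S_PTB → S_CC → ∃ (C0 : ℝ) (p : ℕ), ∀ N A b C j k : ℕ, 2 ≤ N →
  A + b + C < N → b ≤ N - 1 - A - b - C → j ≤ b → k < N → A ≤ k → A + k < N → C ≤ k → C + k < N →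
  ‖Tm N (zl N k) A b C j‖ + ‖deriv (fun z => Tm N z A b C j) (zl N k)‖ = 0 ∨
  ∃ x : Fin 6 → ℝ, Crn N A b C x ∧ ((N : ℝ) - 1) * n1 x = k ∧
    ‖Tm N (zl N k) A b C j‖ + ‖deriv (fun z => Tm N z A b C j) (zl N k)‖ ≤
      C0 * N ^ p * Real.exp (N * pt x)

/-- the conclusion of `S_SB` -/
def SBc : Prop := ∃ (C0 : ℝ) (p : ℕ), ∀ N A b C k : ℕ, 2 ≤ N → A + b + C < N → k < N →
  ‖Wk N (zl N k) A b C‖ + ‖deriv (fun z => Wk N z A b C) (zl N k)‖ = 0 ∨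
  ∃ x : Fin 6 → ℝ, Crn N A b C x ∧
    (((N : ℝ) - 1) * n1 x = k ∨ ((N : ℝ) - 1) * n1 x = (N : ℝ) - 1 - k) ∧
    ‖Wk N (zl N k) A b C‖ + ‖deriv (fun z => Wk N z A b C) (zl N k)‖ ≤
      C0 * N ^ p * Real.exp (N * pt x)

/-- **the sum at the lattice points.**

Proof.  As `task_BB` (`Pool/Agent/Q208/HT/BB.lean`).  By `S_SY` (as functions of `z`) we may assume
`b ≤ γ`: if `b > γ` use `Wk N z A b C = Wk N z A γ C` and exchange `1 ↔ 2`, `4 ↔ 5` in `x` at the end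
(`pt`, `n1` do not change; the second corner of the new `x` is `1 - (A + C + γ)/(N-1)`).
If `A`, `C ≤ min (k, N-1-k)`: sum of `S_TWS` over `j ≤ b` (take the `x` of the largest term).
Otherwise: by `S_EV` we may assume `n2 = N-1-k ≤ n1 = k`, and by `S_EV` (3) and the reversed `x`
(`![x 3, x 4, x 5, x 0, x 1, x 2]`, which has the corners `C, b, A` exchanged and `n1`, `n2`
exchanged, with the same `pt`) we may assume `n2 < A`.  If also `n1 < A` or `n2 < C` everything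
vanishes.  Otherwise the value is `0` and the derivative is `deriv [n2, A]` times the sum of the
products of the other five brackets; `‖deriv [n2, A]‖ * bq N n1 (A - n2) ≤ 1` (`S_D1` (3)) and `S_PTB`
(2) for `a = (A, j, n1-A-j, C, b-j, n2-C-(b-j))` (terms with `A + j > n1` or `C + (b-j) > n2`
vanish). -/
def S_SB : Prop := S_EV → S_PF → S_WR → S_SY → S_D1 → S_LBD → S_PTB → S_CC → S_TWS → SBc

/-- the conclusion of `S_FSB` -/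
def FSc : Prop := ∀ w : ℤ, ∃ (C0 : ℝ) (p : ℕ), ∀ N A b C : ℕ, 2 ≤ N → A + b + C < N →
  Fk N w A b C = 0 ∨ ∃ x : Fin 6 → ℝ, Crn N A b C x ∧ ‖Fk N w A b C‖ ≤ C0 * N ^ p * Real.exp (N * pt x)

/-- **the weight of a region.**

Proof.  Product rule: at a lattice point `z` one has `|ez| = 1`, `|deriv ez| ≤ π |w| / 2`
(`|z| ≤ N`), `|sin (πz/N)| ≤ 1`, and its derivative is at most `π / N`; `Wk` is differentiable.  Sum over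
`k < N`; take the `x` of the largest term. -/
def S_FSB : Prop := SBc → FSc

/-! ### one region: the bounds near the centre -/

/-- `S_TW` with the conditions which are used in its proof -/
def TWc : Prop := ∀ α : Fin 6 → ℝ, Fr α → α 1 ≤ α 2 → α 4 ≤ α 5 → ∃ C0 κ : ℝ, 0 < κ ∧
  ∀ N A b C j k : ℕ, A + b + C < N → Cmp α A b C → j ≤ b → k < N →
  A ≤ k → A + k < N → C ≤ k → C + k < N →
  ‖Tm N (zl N k) A b C j‖ + ‖deriv (fun z => Tm N z A b C j) (zl N k)‖ ≤ C0 * N ^ 2 *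
    Real.exp (eX N α A b C - κ * (dX N α A b C k + ((j : ℝ) - N * α 1) ^ 2) / N)

/-- the bounds at the lattice points near the centre -/
structure Ltn (α : Fin 6 → ℝ) (κ C0 ρ : ℝ) : Prop where
  tw : ∀ N A b C j k : ℕ, A + b + C < N → Cmp α A b C → j ≤ b → k < N →
    A ≤ k → A + k < N → C ≤ k → C + k < N →
    ‖Tm N (zl N k) A b C j‖ + ‖deriv (fun z => Tm N z A b C j) (zl N k)‖ ≤ C0 * N ^ 2 *
      Real.exp (eX N α A b C - κ * (dX N α A b C k + ((j : ℝ) - N * α 1) ^ 2) / N)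
  bb : ∀ N A b C k : ℕ, A + b + C < N → Cmp α A b C → |(A : ℝ) / N - α 0| ≤ ρ →
    |(b : ℝ) / N - (α 1 + α 4)| ≤ ρ → |(C : ℝ) / N - α 3| ≤ ρ → k < N →
    ‖Wk N (zl N k) A b C‖ + ‖deriv (fun z => Wk N z A b C) (zl N k)‖ ≤ C0 * N ^ 3 *
      Real.exp (eX N α A b C - κ * dX N α A b C k / N)
  ev : ∀ N A b C : ℕ, A + b + C < N → ∀ z : ℂ, Wk N (-z) A b C = Wk N z A b C

/-- the maximum of `pt` for the corners of `α` is at `α` only -/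
def NdP (α : Fin 6 → ℝ) : Prop := ∀ x : Fin 6 → ℝ, (∀ i, 0 ≤ x i) → n1 x + n2 x = 1 → x 0 = α 0 →
  x 1 + x 4 = α 1 + α 4 → x 3 = α 3 → x ≠ α → pt x < v0 α

/-- **the bounds near the centre.**

Proof.  `tw` is `TWc`.  `bb`: `α 0, α 3 < 1/2` (`Fr`); let `ε > 0` and `ρ` be small.  If
`|k/N - 1/2| ≤ ε` and `N` is large then `A ≤ k`, `A + k < N` etc.; sum `tw` over `j ≤ b`.  Let
`|k/N - 1/2| > ε`.  `SBc` gives `x`; for large `N` it is in the compact set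
`K_ρ = {x ≥ 0, n1 x + n2 x = 1, |x 0 - α 0| ≤ 2ρ, |x 1 + x 4 - α 1 - α 4| ≤ 2ρ, |x 3 - α 3| ≤ 2ρ,
|n1 x - 1/2| ≥ ε/2}`.  `pt` is continuous, and `< v0 α` on `K_0` by `NdP` (`n1 α = 1/2`), so
`pt ≤ v0 α - 2c` on `K_ρ` for some `ρ`, `c > 0` (compactness; if not, there is a sequence
`x_n ∈ K_{1/n}` with `pt x_n ≥ v0 α - 1/n`, a limit point contradicts).  Make `ρ` and `κ` so small that
`eX ≥ N v0 - c N/2` and `κ dX/N ≤ 5 κ N ≤ c N/2`; `N^p e^{-cN}` is bounded.  Small `N` by the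
constant: there are finitely many cases (`exp > 0`). -/
def S_BBn : Prop := S_EV → S_PF → S_WR → SBc → TWc → ∀ α : Fin 6 → ℝ, Fr α → α 1 ≤ α 2 → α 4 ≤ α 5 →
  NdP α → ∃ κ C0 ρ : ℝ, 0 < κ ∧ 0 < ρ ∧ Ltn α κ C0 ρ

/-- monotonicity -/
def S_LMO : Prop := ∀ (α : Fin 6 → ℝ) (κ C0 ρ κ' C0' ρ' : ℝ), Ltn α κ C0 ρ → κ' ≤ κ → C0 ≤ C0' →
  ρ' ≤ ρ → Ltn α κ' C0' ρ'

/-- the conclusion of `S_SJb` -/
def SJc : Prop := ∀ (α : Fin 6 → ℝ) (r κ K C0 ρ : ℝ), Fr α → Blk α r κ K C0 → Ltn α κ C0 ρ →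
  ∃ τ0 c1 : ℝ, 0 < τ0 ∧ 0 < c1 ∧ ∀ η : ℝ, |η| ≤ τ0 → ∃ C : ℝ, ∃ p N0 : ℕ,
  ∀ N : ℕ, N0 ≤ N →
  LD (fun q : (Fin 3 → ℂ) × ℂ => VB r N α η q.1 q.2)
    (Metric.ball (qC α) (r / 2) ×ˢ Metric.ball 0 r) ∧
  (∀ ξ ∈ Metric.ball (qC α) (r / 2), Ad3 α ξ → ∀ ζ : ℂ, ‖ζ‖ < r → ‖VB r N α η ξ ζ‖ ≤
    C * N * Real.exp (N * (v0 α + K * η ^ 2 + mR α (re3 ξ) - κ * (sR α (re3 ξ) + ζ.re ^ 2) +
      K * (∑ i, (ξ i).im ^ 2 + ζ.im ^ 2)))) ∧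
  ∀ A b C' k : ℕ, Cmp α A b C' → |(A : ℝ) / N - α 0| ≤ r / 4 →
    |(b : ℝ) / N - (α 1 + α 4)| ≤ r / 4 → |(C' : ℝ) / N - α 3| ≤ r / 4 → k < N →
    |(2 * (k : ℝ) + 1 - N) / N| ≤ r / 2 →
    ‖Wk N (zl N k) A b C' -
      VB r N α η ![(A : ℂ) / N, (b : ℂ) / N, (C' : ℂ) / N] (zl N k / N)‖ +
    ‖deriv (fun z => Wk N z A b C') (zl N k) - deriv (fun z : ℂ =>
      VB r N α η ![(A : ℂ) / N, (b : ℂ) / N, (C' : ℂ) / N] (z / N)) (zl N k)‖ ≤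
      C * N ^ p * Real.exp (eX N α A b C' - c1 * N)

/-- **the step in the summation index** (`S_SJ` with `Ltn` instead of `Lat`, without `Acu`).

Proof.  As `Pool/Agent/Q195/HT/SJ.lean`; the conditions `α 0, α 3 ≤ 1/4` are used there only for
`A ≤ k`, `A + k < N` (lemma `Ak`), and `Blk.sml` (`32 r ≤ 1/2 - α 0` if `α 0 ≠ 0`; `r ≤ 1/64`) is
sufficient: `A ≤ N (α 0 + r/4) ≤ N (1/2 - 31 r)`, `k ≥ N/2 - N r/4 - 1/2`. -/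
def S_SJb : Prop := S_GPX → SJc

/-- the conclusion of `S_BNb` -/
def BNcb : Prop := ∀ (α : Fin 6 → ℝ) (r κ K C0 ρ : ℝ), Fr α → Blk α r κ K C0 → Ltn α κ C0 ρ →
  r ≤ ρ → ∃ τ0 c1 : ℝ, 0 < τ0 ∧ 0 < c1 ∧ ∀ (w : ℤ) (y η : ℝ), 0 < y → y ≤ τ0 →
  |(w : ℝ)| * y ≤ τ0 → |η| ≤ τ0 → ∃ C : ℝ, ∃ p N0 : ℕ, ∀ N : ℕ, N0 ≤ N →
  LD (FZ r N α w y η) (Metric.ball (qC α) (r / 2)) ∧
  (∀ ξ ∈ Metric.ball (qC α) (r / 2), Ad3 α ξ → ‖FZ r N α w y η ξ‖ ≤ C * N ^ p *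
    Real.exp (N * (v0 α + (K * η ^ 2 + (Real.pi * w * y) ^ 2 / (16 * κ) + K * y ^ 2) +
      mR α (re3 ξ) - κ * sR α (re3 ξ) + K * ∑ i, (ξ i).im ^ 2))) ∧
  ∀ A b C' : ℕ, Cmp α A b C' → |(A : ℝ) / N - α 0| ≤ r / 4 →
    |(b : ℝ) / N - (α 1 + α 4)| ≤ r / 4 → |(C' : ℝ) / N - α 3| ≤ r / 4 →
    ‖Fk N w A b C' - FZ r N α w y η ![(A : ℂ) / N, (b : ℂ) / N, (C' : ℂ) / N]‖ ≤
      C * N ^ p * Real.exp (eX N α A b C' - c1 * N)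

/-- **the weight of a region near the centre** (`S_BN` with `Ltn` instead of `Lat`, without its last
part).

Proof.  As `Pool/Agent/Q195/HT/BN.lean`; `Lat.bb` is used there in (3) for corners near the centre
only (`r/4 ≤ ρ`), and in (4), which is omitted. -/
def S_BNb : Prop := S_GPX → S_PZ → S_PZ2 → S_INT → SJc → BNcb

/-! ### networks -/

variable {c d : ℕ}

/-- **the sum over a network as an integral** (abstract form; `S_NW0` with a bound of the far terms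
instead of the bound of all `Z s q`).

Proof.  As `Pool/Agent/Q299/HT/NW0.lean`.  The far points (`|t j / N - τ j| > δ` for some `j`) are
bounded by the hypothesis; there are at most `(C N)^d` of them with nonzero terms (`Z s q = 0` if not
`Ps N q`, and `inj`).  At near points `‖Z s q‖ ≤ ‖F s (q/N)‖ + M exp (N (v0 + mR - c1)) ≤
2 M exp (N (v0 + e + mR))` (the bound of `F` with imaginary parts `0`), so replacing the factors one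
after the other costs `C M^c exp (N (∑ v0 + c e - c1))`. -/
def S_NW0b : Prop := S_GPX → S_MPX → ∀ (c d : ℕ) (X : Nw c d), X.Okb → ∀ r κ K c1 : ℝ, 0 < r →
  r ≤ 1 / 64 → (∀ s i, ctr (X.α s) i ≠ 0 → 32 * r ≤ ctr (X.α s) i ∧ 32 * r ≤ 1 / 2 - ctr (X.α s) i) →
  0 < κ → κ ≤ K → 0 < c1 → ∃ δ0 : ℝ, 0 < δ0 ∧ ∀ δ : ℝ, 0 < δ → δ ≤ δ0 → ∀ c3 : ℝ, 0 < c3 →
  ∃ τ1 c2 C' : ℝ, 0 < τ1 ∧ 0 < c2 ∧ ∃ p' N0 : ℕ, ∀ N : ℕ, N0 ≤ N →
  ∀ (Z : Fin c → (Fin 3 → ℤ) → ℂ) (F : Fin c → (Fin 3 → ℂ) → ℂ) (M e : ℝ), 1 ≤ M → 0 ≤ e →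
  (∀ s q, ¬ Ps N q → Z s q = 0) →
  (∀ t : Fin d → ℤ, (∃ j, δ < |(t j : ℝ) / N - X.τ j|) →
    ‖∏ s, Z s (X.q N t s)‖ ≤ M * Real.exp (N * (∑ s, v0 (X.α s) - c3))) →
  (∀ s, LD (F s) (Metric.ball (qC (X.α s)) (r / 2))) →
  (∀ s, ∀ ξ ∈ Metric.ball (qC (X.α s)) (r / 2), Ad3 (X.α s) ξ → ‖F s ξ‖ ≤ M * Real.exp (N *
    (v0 (X.α s) + e + mR (X.α s) (re3 ξ) - κ * sR (X.α s) (re3 ξ) + K * ∑ i, (ξ i).im ^ 2))) →
  (∀ s q, (∀ i, qc (X.α s) i = 0 → q i = 0) → (∀ i, |(q i : ℝ) / N - qc (X.α s) i| ≤ r / 4) →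
    ‖Z s q - F s (fun i => (q i : ℂ) / N)‖ ≤ M * Real.exp (N *
      (v0 (X.α s) + mR (X.α s) (fun i => (q i : ℝ) / N) - c1))) →
  ∀ η : Fin d → ℝ, (∀ j, |η j| ≤ τ1) →
  ‖(∑' t : Fin d → ℤ, ∏ s, Z s (X.q N t s)) - N ^ d * ∫ x in X.bx δ N,
      ∏ s, F s (X.xN N (fun j => x j + η j * Complex.I) s)‖ ≤
    C' * N ^ p' * M ^ (c + 1) * Real.exp (N * (∑ s, v0 (X.α s) + c * e - c2))

/-- **the state sum of a network as an integral.**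

Proof.  As `Pool/Agent/Q251/HT/NW.lean`, with `BNcb` for all regions and `X.Far` (for `δ` and `w`, with
`M` at least its constant `C N^p`; `N0` at least its `N0`). -/
def S_NWb : Prop := S_NW0b → S_GPX → S_MPX → BNcb → ∀ (c d : ℕ) (X : Nw c d), X.Okb → X.Far →
  ∀ r κ K C0 ρ : ℝ, r ≤ ρ → (∀ s, Blk (X.α s) r κ K C0 ∧ Ltn (X.α s) κ C0 ρ) →
  ∃ δ0 : ℝ, 0 < δ0 ∧ ∀ δ : ℝ, 0 < δ → δ ≤ δ0 → ∃ τ1 c2 : ℝ, 0 < τ1 ∧ 0 < c2 ∧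
  ∀ (w : Fin c → ℤ) (y ηJ : Fin c → ℝ) (η : Fin d → ℝ) (e : ℝ), 0 ≤ e →
  (∀ s, 0 < y s ∧ y s ≤ τ1 ∧ |(w s : ℝ)| * y s ≤ τ1 ∧ |ηJ s| ≤ τ1 ∧
      K * ηJ s ^ 2 + (Real.pi * w s * y s) ^ 2 / (16 * κ) + K * y s ^ 2 ≤ e) → (∀ j, |η j| ≤ τ1) →
  ∃ C : ℝ, ∃ p N0 : ℕ, ∀ N : ℕ, N0 ≤ N →
  ‖X.Z N w - N ^ d * ∫ x in X.bx δ N, ∏ s, FZ r N (X.α s) (w s) (y s) (ηJ s)
      (X.xN N (fun j => x j + η j * Complex.I) s)‖ ≤
    C * N ^ p * Real.exp (N * (∑ s, v0 (X.α s) + c * e - c2))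

/-- `S_SDN` -/
def S_SDNb : Prop := S_LC → S_LTd → S_ZZ → ∀ (c d : ℕ) (X : Nw c d), X.Okb → ∀ r κ K C0 : ℝ,
  (∀ s, Blk (X.α s) r κ K C0) → ∃ ρ0 : ℝ, 0 < ρ0 ∧ ∀ ρ : ℝ, 0 < ρ → ρ ≤ ρ0 → ∃ W0 C : ℝ, 1 ≤ W0 ∧
  ∀ (w : Fin c → ℤ) (Wm : ℝ), W0 ≤ Wm → (∀ s, Wm ≤ |(w s : ℝ)|) →
  ∃ (T : Fin d → ℂ) (J ζ : Fin c → ℂ), X.Cr w T J ζ ∧ X.Nr ρ T J ζ ∧
    (∀ j, ‖T j - X.τ j‖ ≤ C / Wm) ∧ (∀ s, ‖J s - X.α s 1‖ ≤ C / Wm) ∧
    (∀ s, ‖ζ s‖ ≤ 3 / |(w s : ℝ)| ∧ 0 < (ζ s).im ∧ (ζ s).im ≤ C / (w s : ℝ) ^ 2) ∧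
    |(X.Ph w T J ζ).re - ∑ s, v0 (X.α s)| ≤ C / Wm ^ 2 ∧
    ∀ (T' : Fin d → ℂ) (J' ζ' : Fin c → ℂ), X.Cr w T' J' ζ' → X.Nr ρ T' J' ζ' →
      T' = T ∧ J' = J ∧ ζ' = ζ

/-- `S_MXN` -/
def S_MXNb : Prop := ∀ (c d : ℕ) (X : Nw c d), X.Okb → ∀ r κ K C0 : ℝ, (∀ s, Blk (X.α s) r κ K C0) →
  ∃ κ' : ℝ, 0 < κ' ∧
  ∀ (w : Fin c → ℤ) (T : Fin d → ℂ) (J ζ : Fin c → ℂ), X.Cr w T J ζ → X.Rg r T J ζ →
  ∀ (a : Fin d → ℝ) (b g : Fin c → ℝ), (∀ s, X.α s 1 = 0 → b s = 0) →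
  X.Rg r (fun j => T j + a j) (fun s => J s + b s) (fun s => ζ s + g s) →
  (X.Ph w (fun j => T j + a j) (fun s => J s + b s) (fun s => ζ s + g s)).re ≤
    (X.Ph w T J ζ).re - κ' * (∑ j, a j ^ 2 + ∑ s, b s ^ 2 + ∑ s, g s ^ 2)

/-- `S_BXN` -/
def S_BXNb : Prop := ∀ (c d : ℕ) (X : Nw c d), X.Okb → ∀ r κ K C0 : ℝ,
  (∀ s, Blk (X.α s) r κ K C0) → ∀ δ : ℝ, 0 < δ →
  (∀ s, ∀ T : Fin d → ℂ, (∀ j, ‖T j - X.τ j‖ ≤ 2 * δ) → X.x T s ∈ Metric.ball (qC (X.α s)) (r / 4)) →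
  ∃ N0 : ℕ, ∃ τ2 : ℝ, 0 < τ2 ∧ ∀ (w : Fin c → ℤ) (y ηJ : Fin c → ℝ) (η : Fin d → ℝ),
  (∀ s, 0 < y s ∧ y s ≤ τ2 ∧ |ηJ s| ≤ τ2) → (∀ j, |η j| ≤ τ2) → ∀ N : ℕ, N0 ≤ N →
  ∫ x in X.bx δ N, ∏ s, FZ r N (X.α s) (w s) (y s) (ηJ s)
      (X.xN N (fun j => x j + η j * Complex.I) s) =
    ∫ u in X.Bx r δ N, X.Pg N w (fun j => u (.inl j) + η j * Complex.I) (X.Jf u ηJ)
      (fun s => u (.inr (.inr s)) + y s * Complex.I)

/-- `S_LPN` -/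
def S_LPNb : Prop := S_LC → S_LAP → S_GIM → S_MXNb → S_BXNb → ∀ (c d : ℕ) (X : Nw c d), X.Okb →
  ∀ r κ K C0 : ℝ, (∀ s, Blk (X.α s) r κ K C0) → ∃ δ0 : ℝ, 0 < δ0 ∧ ∀ δ : ℝ, 0 < δ → δ ≤ δ0 →
  ∃ ρ : ℝ, 0 < ρ ∧ ∀ (w : Fin c → ℤ) (T : Fin d → ℂ) (J ζ : Fin c → ℂ), X.Cr w T J ζ →
  X.Nr ρ T J ζ → (∀ s, 0 < (ζ s).im) → ∃ z : ℂ, z ≠ 0 ∧
  Tendsto (fun N : ℕ => ((√N : ℝ) : ℂ) ^ X.nA / ((√N : ℝ) : ℂ) ^ Fintype.card X.Ix *
    (-1) ^ (c * (N - 1)) * Complex.exp (-(N * X.Ph w T J ζ)) * (N ^ d *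
    ∫ x in X.bx δ N, ∏ s, FZ r N (X.α s) (w s) (ζ s).im (J s).im
      (X.xN N (fun j => x j + (T j).im * Complex.I) s))) atTop (𝓝 z)

/-- the conclusion of `S_ASNb` -/
def AScb : Prop := ∀ (c d : ℕ) (X : Nw c d), X.Okb → X.Far →
  (∀ s, ∃ κ C0 ρ : ℝ, 0 < κ ∧ 0 < ρ ∧ Ltn (X.α s) κ C0 ρ) → ∃ ρ0 : ℝ, 0 < ρ0 ∧ ∀ ρ : ℝ, 0 < ρ →
  ρ ≤ ρ0 → ∃ W0 C : ℝ, 1 ≤ W0 ∧ ∀ (w : Fin c → ℤ) (Wm : ℝ), W0 ≤ Wm → (∀ s, Wm ≤ |(w s : ℝ)|) →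
  ∃ (T : Fin d → ℂ) (J ζ : Fin c → ℂ), X.Cr w T J ζ ∧ X.Nr ρ T J ζ ∧ (∀ s, 0 < (ζ s).im) ∧
    |(X.Ph w T J ζ).re - ∑ s, v0 (X.α s)| ≤ C / Wm ^ 2 ∧
    (∀ (T' : Fin d → ℂ) (J' ζ' : Fin c → ℂ), X.Cr w T' J' ζ' → X.Nr ρ T' J' ζ' →
      T' = T ∧ J' = J ∧ ζ' = ζ) ∧
    ∃ z : ℂ, z ≠ 0 ∧ Tendsto (fun N : ℕ => ((√N : ℝ) : ℂ) ^ X.nA /
      ((√N : ℝ) : ℂ) ^ Fintype.card X.Ix * (-1) ^ (c * (N - 1)) *
      Complex.exp (-(N * X.Ph w T J ζ)) * X.Z N w) atTop (𝓝 z)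

/-- **asymptotics of the state sum of a highly twisted network.**

Proof.  As `Pool/Agent/Q239/HT/ASN.lean`; take `r ≤ ρ` (`S_BMO`). -/
def S_ASNb : Prop := S_LC → S_GAM → S_BMO →
  (∀ α : Fin 6 → ℝ, Fr α → ∃ r κ K C0 : ℝ, Blk α r κ K C0) → S_LMO → S_ZZ → S_NW0b → S_GPX →
  S_MPX → BNcb → S_NWb → S_SDNb → S_LAP → S_GIM → S_MXNb → S_BXNb → S_LPNb → S_LTd → AScb

/-! ### diagrams -/

/-- **the geometric angles are the only maximum of the potential on the polytope of all nonnegative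
solutions.** -/
def Dm (D : List Pc) (a : Fin D.length → Fin 6 → ℝ) : Prop :=
  ∀ x : Fin D.length → Fin 6 → ℝ, (∀ s i, 0 ≤ x s i) → Sol D x [0, 0] 1 → x ≠ a →
    ∑ s, pt (x s) < fV a

/-- **the network is good.**

Proof.  As `Pool/Agent/Q206/HT/NO.lean`, without the conditions `q0`, `q3`. -/
def S_NOb : Prop := ∀ D : List Pc, Val D 1 → Pri D 1 → D ≠ [] → ∀ a : Fin D.length → Fin 6 → ℝ,
  Mx D a → ∀ (d : ℕ) (β : Fin D.length → Bool) (Y : Nw D.length d), NetOf D a β Y →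
  Y.Okb ∧ (∀ s, Y.α s 1 ≤ Y.α s 2 ∧ Y.α s 4 ≤ Y.α s 5) ∧ ∑ s, v0 (Y.α s) = fV a

/-- **one region.**

Proof.  `Y.α s = bf (β s) (a s)`.  Given `x` as in `NdP`, let `y = Function.update a s (bf (β s) x)`;
it has the same corners as `a`, so it is a solution (`Sol_cor`, `Pool/Agent/Q224/FAL/GD.lean`; the
fourth corner is determined by the sum), `≥ 0`, and `y ≠ a`.  `pt` does not change under `bf`, and
`pt (a k) = ∑ hh (a k i)` (`n1 = n2 = 1/2`, `LL (1/2) = 0`); subtract the other regions. -/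
def S_NDM : Prop := ∀ D : List Pc, Val D 1 → Pri D 1 → D ≠ [] → ∀ a : Fin D.length → Fin 6 → ℝ,
  Mx D a → Dm D a → ∀ (d : ℕ) (β : Fin D.length → Bool) (Y : Nw D.length d), NetOf D a β Y →
  ∀ s, NdP (Y.α s)

/-- **the far terms.**

Proof.  If the product is not `0` then `Ps N q_s` for all `s`, and `FSc` gives for each `s` numbers
`x_s` with the corners `q_s / (N - 1)`; let `x s = bf (β s) (x_s)`.  By `NetOf` (`q0`, `E1`) there is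
`y` with `So D y (N - 1)` and `cv (β s) (y s) = q_s`, so `x` has the corners of `y / (N-1)`: it is a
solution of `Sol D x [0, 0] 1` (`Sol_cor`; the fourth corner by the sum) and `≥ 0`.  Let
`K = {x ≥ 0, Sol D x [0,0] 1, some corner of some region differs from that of a by at least δ'}`:
it is compact (`Sol` is closed, `x ≤ 1`), and `∑ pt < fV a` on `K`, so `∑ pt ≤ fV a - 2 c3` on `K`.
By `Okb.inj` and `ctr` the condition on `t` implies that `x ∈ K` for `N ≥ N0`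
(`q_s/(N-1) - qc = q0 + ∑ t_j/(N-1) E_j - qc = ∑ (t_j/(N-1) - τ_j) E_j`, `|t_j/(N-1) - t_j/N|` is small
when the `q_s` are bounded by `N`).  Multiply the bounds. -/
def S_FAR : Prop := FSc → ∀ D : List Pc, Val D 1 → Pri D 1 → D ≠ [] →
  ∀ a : Fin D.length → Fin 6 → ℝ, Mx D a → Dm D a → ∀ (d : ℕ) (β : Fin D.length → Bool)
  (Y : Nw D.length d), NetOf D a β Y → Y.Okb → ∑ s, v0 (Y.α s) = fV a → Y.Far

/-- the conclusion of `S_NTb` -/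
def NTcb : Prop := ∀ D : List Pc, Val D 1 → Pri D 1 → D ≠ [] →
  ∀ a : Fin D.length → Fin 6 → ℝ, Mx D a → ∀ (d : ℕ) (β : Fin D.length → Bool)
  (Y : Nw D.length d), NetOf D a β Y → Y.Okb →
  (∀ x : Fin D.length → Fin 6 → ℂ, So D x 1 ↔ ∃ (T : Fin d → ℂ) (J ζ : Fin D.length → ℂ), Y.AJ J ∧
    x = fun s => sx (β s) (1 / 2) (Y.v T J s) (ζ s)) ∧
  (∀ x : Fin D.length → Fin 6 → ℂ, So D x 0 ↔ ∃ (T : Fin d → ℂ) (J ζ : Fin D.length → ℂ), Y.AJ J ∧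
    x = fun s => sx (β s) 0 (Y.dv T J s) (ζ s)) ∧
  (∀ (w : Fin D.length → ℤ) (T T' : Fin d → ℂ) (J ζ J' ζ' : Fin D.length → ℂ), Y.AJ J → Y.AJ J' →
    GI w (fun s => sx (β s) (1 / 2) (Y.v T J s) (ζ s))
      (fun s => sx (β s) 0 (Y.dv T' J' s) (ζ' s)) = Y.GP w T J ζ T' J' ζ') ∧
  ∀ (w : Fin D.length → ℤ) (T : Fin d → ℂ) (J ζ : Fin D.length → ℂ), Y.AJ J →
    PI w (fun s => sx (β s) (1 / 2) (Y.v T J s) (ζ s)) = Y.Ph w T J ζ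

/-- `S_NT` -/
def S_NTb : Prop := S_LC → NTcb

/-- `S_NDi` -/
def S_NDib : Prop := ∀ D : List Pc, Val D 1 → Pri D 1 → D ≠ [] →
  ∀ a : Fin D.length → Fin 6 → ℝ, Mx D a → ∀ (d : ℕ) (β : Fin D.length → Bool)
  (Y : Nw D.length d), NetOf D a β Y → Y.Okb → ∃ C : ℝ, 1 ≤ C ∧
  ∀ (ρ : ℝ) (T : Fin d → ℂ) (J ζ : Fin D.length → ℂ), 0 < ρ →
  (Y.Nr ρ T J ζ → ∀ s i, ‖sx (β s) (1 / 2) (Y.v T J s) (ζ s) i - a s i‖ < C * ρ) ∧
  ((∀ s i, ‖sx (β s) (1 / 2) (Y.v T J s) (ζ s) i - a s i‖ < ρ) → Y.Nr (C * ρ) T J ζ)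

end Pool.Agent.Q99.HU
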