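import Pool.Agent.Q99.HU.Stm1

/-!
# Highly twisted links on planar shadows, the general case, part 2

A sufficient condition for `Dm` (`S_BAL`), and the phase of the invariant (`S_JGP`).
-/

set_option autoImplicit false

namespace Pool.Agent.Q99.HU

open Finset Filter Topology MeasureTheory
open Pool.Agent.W719.BS (D LL)
open Pool.Agent.W715.VC (rt)
open Pool.Agent.W709.QAT (Piece run)
open Pool.Agent.Q191.LB (sg)
open Pool.Agent.Q191.TW (cs)
open Pool.Agent.Q99.FW (Kg)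
open Pool.Agent.Q99.FAL (bq hh S_T1 dn n1 n2 Pc Ty Val Pri Pos AS Sol Out c6 fV cor Net)
open Pool.Agent.Q99.KN (sn bc Wk zl ez Fk cz S_PF S_WR S_SY)
open Pool.Agent.Q99.HT

/-- **far brackets at a lower level.**

Proof.  For `x, y ≥ 0`, `x + y < N` one has `bq N (x + y) x = ∏_{i=1}^x s_N(y + i) / s_N(i)`,
`s_N(u) = 2 sin (π u / N)`, symmetric in the three numbers `x, y, N - 1 - x - y`.  Let `N' ≤ N`,
`φ(u) = s_N(u) / s_{N'}(u)` for `0 < u < N'`: it is positive, increasing and log-convex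
(`(log φ)' = (π/N) cot (πu/N) - (π/N') cot (πu/N') ≥ 0`, because `x cot x` is decreasing on `(0, π)`;
`(log φ)'' = (π/N')²/sin² (πu/N') - (π/N)²/sin² (πu/N) ≥ 0`, because `x / sin x` is increasing).  For
`x + y < N'` let `Q(x, y) = ∏_{i=1}^x φ(y + i) / φ(i)`, symmetric in `x` and `y`; then
`bq N (x+y) x = Q(x,y) bq N' (x+y) x`.  Here `N = N' + M`, and (with `m = C + y + e`)
`bq N n C` has the triple `(C, m, ·)`, `bq N n j`: `(j, m, ·)`, `bq N n g`: `(g, m, ·)`,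
`bq N m y`: `(y, m - y, ·)`, `bq N m e`: `(e, m - e, ·)`, and for `N'`, `n'` the triples have the same
two first numbers; `bq N n M` has the triple `(m, n', M)`, `n' = m + j + g`, and
`bq N (m + n') m = Q(m, n') bq N' (N' - 1) m = Q(m, n')`.  So the claim is
`Q(m,C) Q(m,j) Q(m,g) Q(y,m-y) Q(e,m-e) ≤ Q(m, m + j + g)`.  Since `φ` is increasing,
`Q(y,m-y) ≤ Q(y,m) = Q(m,y)`, the same for `e`; since `φ` is log-convex
(`φ(a+i) φ(b+i) ≤ φ(i) φ(a+b+i)`), `Q(m,a) Q(m,b) ≤ Q(m,a+b)`; `C + y + e = m`. -/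
def S_HIM : Prop := ∀ M j g C y e : ℕ,
  let m := C + y + e
  let n' := m + j + g
  let N' := n' + m + 1
  bq (N' + M) (n' + M : ℕ) C * (bq (N' + M) (n' + M : ℕ) j * bq (N' + M) m y) *
      (bq (N' + M) (n' + M : ℕ) g * bq (N' + M) m e) ≤
    bq (N' + M) (n' + M : ℕ) M * (bq N' n' C * (bq N' n' j * bq N' m y) * (bq N' n' g * bq N' m e))

/-- the tangent plane at the centre is positive at the corners `A = 1` and `C = 1` -/
def Bal (α : Fin 6 → ℝ) : Prop :=
  (α 0 ≠ 0 → 0 < v0 α + mR α ![1, 0, 0]) ∧ (α 3 ≠ 0 → 0 < v0 α + mR α ![0, 0, 1])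

/-- **the far terms of a region.**

Proof.  If `A + j > n1` or `C + (b - j) > n2` the left side is `0`.  Otherwise `S_HIM` with
`M = A - n2`, `g = n1 - A - j`, `e = n2 - C - (b-j)`, `y = b - j`: then `n' = n1 - M`,
`N' = N - M`, and the product in the brackets is the one of `S_TG` for `N', n', n2, n2, b, C, j` (the
first corner is `n2 = A - M`, and `bq N' n2 n2 = 1`).  So it is at most
`C0 exp (eX N' α n2 b C - κ (dX N' α n2 b C n' + (j - N' α1)²) / N')`, and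
`eX N' α (A - M) b C = eX N α A b C - M (v0 α + mR α ![1, 0, 0])`.  It remains to show
`M P + κ dX N' α n2 b C n' / N' ≥ κ' · 5 N - C` (`dX + (j - N α1)² ≤ 5 N²`), `P > 0` (`α 0 ≠ 0` by
`Cmp`, as `A > 0`): with `n' + n2 + 1 = N'`,
`(n2 - N' α0)² + (n' - N'/2)² ≥ ((1/2 - α0) N' - 1)² / 2`, so `dX/N' ≥ (1/2-α0)² N'/2 - 1`, and
`N' + M = N`. -/
def S_TG6 : Prop := S_HIM → S_TG → S_T1 → ∀ α : Fin 6 → ℝ, Fr α → Bal α → ∃ C0 κ : ℝ, 0 < κ ∧
  ∀ N n1 n2 A b C j : ℕ, n1 + n2 + 1 = N → j ≤ b → A + b + C < N → Cmp α A b C → n2 < A →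
  bq N n1 C * (bq N n1 j * bq N n2 (b - j : ℕ)) *
      (bq N n1 (A + j : ℕ) * bq N n2 (C + (b - j) : ℕ)) ≤ bq N n1 (A - n2 : ℕ) *
    (C0 * Real.exp (eX N α A b C - κ * (dX N α A b C n1 + ((j : ℝ) - N * α 1) ^ 2) / N))

/-- **the tangent plane.**

Proof.  First let `x 0 ≠ n2 x`, `x 3 ≠ n1 x`.  For large `N` take integers `a_i ≥ 0` with the sum
`N - 1` and `|a_i - (N-1) x_i| ≤ 5` (`a_i = ⌊(N-1) x_i⌋` for `i ≠ 2`, `a_2` the rest).  If `x 0 < n2 x`
and `x 3 < n1 x`, then `a 0 ≤ m`, `a 3 ≤ n` (`n = a 0 + a 1 + a 2`, `m` the rest), and by `S_LBD` the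
product of the six brackets is at least `exp (N pt (a/(N-1))) / (C N^p)` (the inequalities of `S_LBD`
in the other direction than in `S_PTB`), and by `S_TG` at most
`C0 exp (eX N α A b C - κ (dX + (j - N α1)²)/N)`.  Take logarithms, divide by `N`, let `N → ∞` (`pt` is
continuous): `pt x ≤ v0 α + mR α ![x 0, x 1 + x 4, x 3] - κ (∑ (corner - qc)² + (n1 x - 1/2)² +
(x 1 - α 1)²)`, and the bracket vanishes only for `x = α`.  If `x 0 > n2 x` use `S_TG6` (for
`x 3 < n1 x`, which holds since `x 3 ≤ n2 x < x 0 ≤ n1 x`).  If `x 3 > n1 x` pass to the reversed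
`x` and `α` (`![x 3, x 4, x 5, x 0, x 1, x 2]`; `Fr`, `Bal`, `pt`, `v0 + mR` are preserved, see `rv` in
`Pool/Agent/Q208/HT/BB.lean`).  In the remaining cases `x` is a limit of points of the first kind
(for instance `(1 - ε) x + ε α`, as `α 0, α 3 < 1/2`), with the same `κ`. -/
def S_RL : Prop := S_LBD → S_TG → S_TG6 → S_HIM → S_T1 → ∀ α : Fin 6 → ℝ, Fr α → Bal α →
  ∀ x : Fin 6 → ℝ, (∀ i, 0 ≤ x i) → n1 x + n2 x = 1 → (α 0 = 0 → x 0 = 0) →
  (α 1 = 0 → x 1 = 0 ∧ x 4 = 0) → (α 3 = 0 → x 3 = 0) → x ≠ α →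
  pt x < v0 α + mR α ![x 0, x 1 + x 4, x 3]

/-- the conclusion of `S_RL` -/
def RLc : Prop := ∀ α : Fin 6 → ℝ, Fr α → Bal α →
  ∀ x : Fin 6 → ℝ, (∀ i, 0 ≤ x i) → n1 x + n2 x = 1 → (α 0 = 0 → x 0 = 0) →
  (α 1 = 0 → x 1 = 0 ∧ x 4 = 0) → (α 3 = 0 → x 3 = 0) → x ≠ α →
  pt x < v0 α + mR α ![x 0, x 1 + x 4, x 3]

/-- **a sufficient condition for `Dm`.**

Proof.  Take `NetOf D a β Y` (`S_NE`), `Y.Okb`, `∑ v0 = fV a` (`S_NOb`), `α_s = bf (β s) (a s)`.  Let
`x ≥ 0` be a solution, `x ≠ a`, `x'_s = bf (β s) (x s)`; `pt x'_s = pt (x s)`.  Outer angles of `x`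
vanish (`task_OZ`), so `α_s i = 0` implies the conditions of `RLc` (as in `Q206/HT/NO.lean`: a zero of
`α_s 0`, `α_s 1`, `α_s 3` means that the corner is outer).  So
`∑ pt (x s) < ∑ v0 + ∑_s mR α_s (corners of x'_s)`, and the last sum vanishes: `x - a` is a real
solution of the homogeneous equations, so its corners are `∑ t_j E_j` with real `t`
(`task_SP`, as in `NE.lean` or `NT.lean`), and `crit`. -/
def S_BAL : Prop := RLc → S_NE → S_NOb → ∀ D : List Pc, Val D 1 → Pri D 1 → D ≠ [] →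
  ∀ a : Fin D.length → Fin 6 → ℝ, Mx D a → (∀ s, Bal (bf (decide (a s 1 ≤ a s 2)) (a s))) → Dm D a

/-- **angles which are not obtuse.**

Proof.  Let `e(c) = hh c + c log tan (πc)`, `e(0) = 0`, `e(c) = ∫_0^c 2πt / sin 2πt dt ≥ c`, and
`t_i = tan (π α i)`.  Suppose `0 < α 0 ≤ 1/4`.  By the definition of `mR`, `v0 α + mR α ![1,0,0]` is the
sum over the six brackets (centres `c_i = α 0, α 1, 1/2 - α 2, α 3, α 4, 1/2 - α 5`; those with
centre `0` left out) of the tangent planes `hh c - log tan (πc) (ξ - c) - log cos (πc) (ν - 1/2)` at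
`(ν, ξ) = (0, 1), (1, 0), (1, 1), (1, 0), (0, 0), (0, 0)` (the lattice point `A = 1`, `b = C = 0`, `j = 0`,
`n1 = 1`, `n2 = 0`; compare the docstring of `S_TG`: the coefficients of `j` and of `n1 - n2`
vanish in the sum).  The last five are `≥ 0`: they are `e(c) - (1/2) log cos`, or
`e(c) + (1/2) log cos (πc)`, or for `(1, 1)`: `e(c) - log tan (πc) - (1/2) log cos (πc) =
e(1/2-c) + (1/2) log (cos / sin) - …` (they are values of tangent planes of the concave function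
`LL ν - LL (ν-ξ) - LL ξ` at points where it vanishes; or from `S_T1` with `N → ∞`: at these points
`bq = 1`, so `0 ≤ N · (tangent plane) + O(1)`).  The first one is
`e(c) - log tan (πc) + (1/2) log cos (πc) ≥ c + (1/2) log cos (πc) > 0` for `0 < c ≤ 1/4`
(`tan ≤ 1`; `log cos (πc)` is concave in `c`, `0` at `0`, and `1/4 + (1/2) log cos (π/4) =
1/4 - (log 2)/4 > 0`).  The second statement by reversal. -/
def S_NOP : Prop := S_T1 → ∀ α : Fin 6 → ℝ, Fr α → α 0 ≤ 1 / 4 → α 3 ≤ 1 / 4 → Bal α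

/-- **the Kashaev invariant with the explicit phase.**

Proof.  As `Pool/Agent/Q251/HT/SGD.lean`, with the constants made explicit as in
`Pool/Agent/Q99/FP2/Tr.lean`, `GJ.lean`, `Al.lean` (there for regions with circles, where the constant
of a region is `Kg N (sg σ) ^ m * K2 N`; here the regions are `Rgn`, with the constant
`R.K = Kg N (sg σ) ^ m * (-1) ^ (N - 1)` for `tw N σ m`): `TGall`, `S_GG`, `S_JG` of
`Pool/Agent/Q99/KN/Stm2.lean` with `θ = R.K · g N T p n`, where `g` is the product of the factors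
`kcup`, `kcap`, `ep` in `th` (`FP2/Tr.lean`).  The product of all `g` is `cs N (α N² + β N + γ)` with
`α = 0` by the telescoping argument of `phs_th`, `phs_Th` (`Fh`).  The proofs of `TGall`, `GG`, `JG`:
`Pool/Agent/Q299/KN/TG2.lean`, `Q239/KN/GG.lean`, `Q239/KN/JG.lean`. -/
def S_JGP : Prop := ∀ D : List Pc, Val D 1 → ∃ β γ : ℝ, ∀ (N : ℕ) (h : 0 < N)
  (f : Fin D.length → Bool × ℕ),
  run N (rt N) (lnk D f) (fun l => if l = [⟨0, h⟩] then 1 else 0) [⟨0, h⟩] =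
    cs N (β * N + γ) * ((-1) ^ (N - 1)) ^ D.length * (∏ k, Kg N (sg (f k).1) ^ (f k).2) *
      (N / Real.pi) ^ D.length * ZD N D (wf f)

end Pool.Agent.Q99.HU
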