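import Pool.Agent.Q99.HU.Fin
import Pool.Agent.Q99.HT.Asm
import Pool.Agent.Q99.HU.Stm2
import Pool.Agent.Q151.HU.LBD
import Pool.Agent.Q151.HU.PTB
import Pool.Agent.Q176.HU.CC
import Pool.Agent.Q176.HU.FSB
import Pool.Agent.Q195.HU.BNb
import Pool.Agent.Q195.HU.SJb
import Pool.Agent.Q210.HU.ASNb
import Pool.Agent.Q210.HU.NW0b
import Pool.Agent.Q210.HU.NWb
import Pool.Agent.Q239.HU.NDM
import Pool.Agent.Q239.HU.NOb
import Pool.Agent.Q239.HU.SB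
import Pool.Agent.Q99.HU.Q166.NT
import Pool.Agent.Q99.HU.Q166.NDi
import Pool.Agent.Q99.HU.Q208.TW
import Pool.Agent.Q99.HU.Q239.LPN
import Pool.Agent.Q99.HU.Q239.MXN
import Pool.Agent.Q99.HU.Q299.BXN
import Pool.Agent.Q99.HU.Q299.SDN

/-!
# Highly twisted links on planar shadows, the general case: assembly of the tools
-/

set_option autoImplicit false

namespace Pool.Agent.Q99.HU

open Finset Filter Topology MeasureTheory
open Pool.Agent.Q99.HT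
open Pool.Agent.Q99.FAL (S_T1 Pc Val Pri fV n1 n2)

theorem t_LMO : S_LMO := by
  intro α κ C0 ρ κ' C0' ρ' h h1 h2 h3
  have key : ∀ (n X e D N : ℝ), 0 ≤ n → 0 < X → 0 ≤ N → 0 ≤ D →
      n ≤ C0 * X * Real.exp (e - κ * D / N) → n ≤ C0' * X * Real.exp (e - κ' * D / N) := by
    intro n X e D N h5 h6 h7 h8 h9
    have e0 : 0 ≤ C0 := by
      by_contra hc
      have := mul_neg_of_neg_of_pos (mul_neg_of_neg_of_pos (not_le.1 hc) h6)
        (Real.exp_pos (e - κ * D / N))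
      linarith
    have e1 : κ' * D / N ≤ κ * D / N := by
      apply div_le_div_of_nonneg_right _ h7
      exact mul_le_mul_of_nonneg_right h1 h8
    have e2 : Real.exp (e - κ * D / N) ≤ Real.exp (e - κ' * D / N) :=
      Real.exp_le_exp.2 (by linarith)
    calc n ≤ C0 * X * Real.exp (e - κ * D / N) := h9
      _ ≤ C0 * X * Real.exp (e - κ' * D / N) :=
          mul_le_mul_of_nonneg_left e2 (mul_nonneg e0 h6.le)
      _ ≤ _ := mul_le_mul_of_nonneg_right (mul_le_mul_of_nonneg_right h2 h6.le) (Real.exp_pos _).le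
  have hd : ∀ N A b C k : ℕ, 0 ≤ dX N α A b C k := by
    intro N A b C k
    unfold dX
    positivity
  refine ⟨?_, ?_, h.ev⟩
  · intro N A b C j k g1 g2 g3 g4 g5 g6 g7 g8
    have hN : (0 : ℝ) < N := by exact_mod_cast (by omega : 0 < N)
    exact key _ _ _ _ N (by positivity) (by positivity) hN.le
      (add_nonneg (hd _ _ _ _ _) (sq_nonneg _)) (h.tw N A b C j k g1 g2 g3 g4 g5 g6 g7 g8)
  · intro N A b C k g1 g2 g3 g4 g5 g6
    have hN : (0 : ℝ) < N := by exact_mod_cast (by omega : 0 < N)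
    exact key _ _ _ _ N (by positivity) (by positivity) hN.le (hd _ _ _ _ _)
      (h.bb N A b C k g1 g2 (g3.trans h3) (g4.trans h3) (g5.trans h3) g6)

theorem t_TW : TWc := Q208.task_TW Pool.Agent.Q166.HT.task_TG t_T1

theorem t_SB (hW : S_TWS) : SBc :=
  Pool.Agent.Q239.HU.task_SB Pool.Agent.Q208.HT.task_EV t_PF t_WR Pool.Agent.Q208.KN.task_SY
    Pool.Agent.Q208.HT.task_D1 Pool.Agent.Q151.HU.task_LBD Pool.Agent.Q151.HU.task_PTB
    Pool.Agent.Q176.HU.task_CC hW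

theorem t_FS (hW : S_TWS) : FSc := Pool.Agent.Q176.HU.task_FSB (t_SB hW)

theorem t_SJ : SJc := Pool.Agent.Q195.HU.task_SJb Pool.Agent.Q237.HT.task_GPX

theorem t_BNb : BNcb :=
  Pool.Agent.Q195.HU.task_BNb Pool.Agent.Q237.HT.task_GPX Q162.KN.task_PZ
    Pool.Agent.Q237.HT.task_PZ2 Pool.Agent.Q237.HT.task_INT t_SJ

theorem t_ASb : AScb :=
  Pool.Agent.Q210.HU.task_ASNb t_LC t_GAM Pool.Agent.Q176.HT.task_BMO
    (t_Blk Pool.Agent.Q24.HT.task_LTd Pool.Agent.Q24.HT.task_TBI) t_LMO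
    Pool.Agent.Q176.HT.task_ZZ Pool.Agent.Q210.HU.task_NW0b Pool.Agent.Q237.HT.task_GPX
    Pool.Agent.Q237.HT.task_MPX t_BNb Pool.Agent.Q210.HU.task_NWb Q299.task_SDN
    Pool.Agent.Q239.KN.task_LAP _root_.Q299.KN.Gim.task_GIM Q239.task_MXN
    Q299.task_BXN Q239.task_LPN Pool.Agent.Q24.HT.task_LTd

theorem all_hu (hW : S_TWS) (hB : S_BBn) (hF : S_FAR) (D : List Pc) (h1 : Val D 1) (h2 : Pri D 1)
    (h3 : D ≠ []) (a : Fin D.length → Fin 6 → ℝ) (ha : Mx D a) (hq : Dm D a) :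
    ∃ ρ0 : ℝ, 0 < ρ0 ∧ ∀ ρ : ℝ, 0 < ρ → ρ ≤ ρ0 → ∃ W0 C : ℝ, 1 ≤ W0 ∧
    ∀ (w : Fin D.length → ℤ) (Wm : ℝ), W0 ≤ Wm → (∀ k, Wm ≤ |(w k : ℝ)|) →
    ∃ x : Fin D.length → Fin 6 → ℂ, CrI D w x ∧ (∀ s i, ‖x s i - a s i‖ < ρ) ∧
      (∀ x', CrI D w x' → (∀ s i, ‖x' s i - a s i‖ < ρ) → x' = x) ∧
      (∀ s, 0 < (n1 (x s) - n2 (x s)).im) ∧ VI x = 2 * Real.pi * (PI w x).re ∧
      |VI x - 2 * Real.pi * fV a| ≤ C / Wm ^ 2 ∧
      ∃ z : ℂ, z ≠ 0 ∧ Tendsto (fun N : ℕ => (N : ℂ) ^ D.length * ZD N D w /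
        (N * (√N : ℝ) * ((-1) ^ (D.length * (N - 1)) * Complex.exp (N * PI w x)))) atTop (𝓝 z) :=
  fin_hu t_ASb Pool.Agent.Q206.HT.task_NE Pool.Agent.Q239.HU.task_NOb Pool.Agent.Q239.HU.task_NDM
    hF (t_FS hW) (hB Pool.Agent.Q208.HT.task_EV t_PF t_WR (t_SB hW) t_TW)
    Pool.Agent.Q261.HT.task_NR
    (Pool.Agent.Q261.HT.task_NZ t_PF t_WR Pool.Agent.Q208.KN.task_SY)
    (Q166.task_NT t_LC) Q166.task_NDi
    (Pool.Agent.Q206.HT.task_VF t_LC Pool.Agent.Q239.KN.task_BW) D h1 h2 h3 a ha hq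

end Pool.Agent.Q99.HU
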