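import Pool.Agent.Q99.HU.Asm1

/-!
# Highly twisted links on planar shadows, the general case: assembly of the tools, part 2
-/

set_option autoImplicit false

namespace Pool.Agent.Q99.HU

open Finset Filter Topology MeasureTheory
open Pool.Agent.Q99.HT
open Pool.Agent.Q191.LB (sg)
open Pool.Agent.Q99.FAL (S_T1 Pc Val Pri fV n1 n2)

lemma wf_abs {n : ℕ} (f : Fin n → Bool × ℕ) (k : Fin n) : |((wf f k : ℤ) : ℝ)| = (f k).2 := by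
  unfold wf sg
  cases (f k).1 <;> simp

theorem vc_hu (hW : S_TWS) (hB : S_BBn) (hF : S_FAR) (D : List Pc) (h1 : Val D 1) (h2 : Pri D 1)
    (h3 : D ≠ []) (a : Fin D.length → Fin 6 → ℝ) (ha : Mx D a) (hq : Dm D a) :
    ∃ ρ0 : ℝ, 0 < ρ0 ∧ ∀ ρ : ℝ, 0 < ρ → ρ ≤ ρ0 → ∃ W0 C : ℝ, 1 ≤ W0 ∧
    ∀ (f : Fin D.length → Bool × ℕ) (Wm : ℝ), W0 ≤ Wm → (∀ k, Wm ≤ (f k).2) →
    ∃ x : Fin D.length → Fin 6 → ℂ, CrI D (wf f) x ∧ (∀ s i, ‖x s i - a s i‖ < ρ) ∧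
      (∀ x', CrI D (wf f) x' → (∀ s i, ‖x' s i - a s i‖ < ρ) → x' = x) ∧
      (∀ s, 0 < (n1 (x s) - n2 (x s)).im) ∧
      |VI x - 2 * Real.pi * fV a| ≤ C / Wm ^ 2 ∧
      ∃ z : ℝ, 0 < z ∧ Tendsto (fun N : ℕ => ‖kas N D f‖ /
        (N * √N * Real.exp (N * (VI x / (2 * Real.pi))))) atTop (𝓝 z) := by
  obtain ⟨ρ0, hρ0, H⟩ := all_hu hW hB hF D h1 h2 h3 a ha hq
  refine ⟨ρ0, hρ0, fun ρ hρ hρ' => ?_⟩
  obtain ⟨W0, C, hW0, G⟩ := H ρ hρ hρ'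
  refine ⟨W0, C, hW0, fun f Wm hWm hf => ?_⟩
  obtain ⟨x, g1, g2, g3, g4, g5, g6, z, hz, g7⟩ := G (wf f) Wm hWm fun k => by
    rw [wf_abs]
    exact hf k
  exact ⟨x, g1, g2, g3, g4, g6, fin_mod t_SG D h1 f x g5 z hz g7⟩

theorem bal_hu (hI : S_HIM) (hG : S_TG6) (hR : S_RL) (hB : S_BAL) (D : List Pc) (h1 : Val D 1)
    (h2 : Pri D 1) (h3 : D ≠ []) (a : Fin D.length → Fin 6 → ℝ) (ha : Mx D a)
    (hb : ∀ s, Bal (bf (decide (a s 1 ≤ a s 2)) (a s))) : Dm D a :=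
  hB (hR Pool.Agent.Q151.HU.task_LBD Pool.Agent.Q166.HT.task_TG hG hI t_T1)
    Pool.Agent.Q206.HT.task_NE Pool.Agent.Q239.HU.task_NOb D h1 h2 h3 a ha hb

theorem nop_hu (hI : S_HIM) (hG : S_TG6) (hR : S_RL) (hB : S_BAL) (hN : S_NOP) (D : List Pc)
    (h1 : Val D 1) (h2 : Pri D 1) (h3 : D ≠ []) (a : Fin D.length → Fin 6 → ℝ) (ha : Mx D a)
    (hq : ∀ k, a k 0 ≤ 1 / 4 ∧ a k 3 ≤ 1 / 4) : Dm D a := by
  refine bal_hu hI hG hR hB D h1 h2 h3 a ha fun s => ?_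
  obtain ⟨d, β, Y, hY⟩ := Pool.Agent.Q206.HT.task_NE D h1 h2 h3 a ha
  obtain ⟨hOk, -, -⟩ := Pool.Agent.Q239.HU.task_NOb D h1 h2 h3 a ha d β Y hY
  have e1 : decide (a s 1 ≤ a s 2) = β s := by
    have := hY.be s
    cases hβ : β s
    · rw [hβ] at this
      simpa using this
    · rw [hβ] at this
      simpa using this
  have e2 := hOk.fr s
  rw [hY.al s, ← e1] at e2
  refine hN t_T1 _ e2 ?_ ?_
  · unfold bf
    split <;> exact (hq s).1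
  · unfold bf
    split <;> exact (hq s).2

end Pool.Agent.Q99.HU
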